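import Pool.Agent.helper3.T6R.Spec

/-! Row t6r:RSU (MP_16912e_nt): the dyadic sum, real quadratic fields. -/

set_option autoImplicit false

namespace Pool.Agent.T6R

open Finset NumberField Pool.Agent.helper3.FT Pool.Agent.helper47.RA Pool.Agent.T5 Pool.Agent.T6
open scoped nonZeroDivisors

theorem RSU_geo (I : ℕ) : ∑ i ∈ range I, ((i : ℝ) + 1) / 2 ^ i ≤ 4 := by
  have h : ∀ I : ℕ, ∑ i ∈ range I, ((i : ℝ) + 1) / 2 ^ i ≤ 4 - (2 * (I : ℝ) + 4) / 2 ^ I := by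
    intro I
    induction I with
    | zero => norm_num
    | succ n ih =>
      rw [Finset.sum_range_succ]
      have h2 : (0 : ℝ) < 2 ^ n := by positivity
      have e1 : (4 : ℝ) - (2 * ((n + 1 : ℕ) : ℝ) + 4) / 2 ^ (n + 1) =
          4 - (2 * (n : ℝ) + 4) / 2 ^ n + ((n : ℝ) + 1) / 2 ^ n := by
        push_cast
        rw [pow_succ]
        field_simp
        ring
      rw [e1]
      linarith
  have g2 : (0 : ℝ) ≤ (2 * (I : ℝ) + 4) / 2 ^ I := by positivity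
  linarith [h I]

theorem RSU_card (N : ℝ) (hN : 0 ≤ N) : ((DNR N).card : ℝ) ≤ N := by
  have h1 : (DNR N).card ≤ (Icc (1 : ℤ) ⌊N⌋).card := by
    classical
    unfold DNR
    exact Finset.card_filter_le _ _
  rw [Int.card_Icc] at h1
  have h0 : 0 ≤ ⌊N⌋ := Int.floor_nonneg.mpr hN
  have h2 : (⌊N⌋ + 1 - 1).toNat = ⌊N⌋.toNat := by
    rw [add_sub_cancel_right]
  rw [h2] at h1
  have h3 : ((⌊N⌋.toNat : ℕ) : ℝ) = ((⌊N⌋ : ℤ) : ℝ) := by
    have := Int.toNat_of_nonneg h0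
    exact_mod_cast this
  calc ((DNR N).card : ℝ) ≤ ((⌊N⌋.toNat : ℕ) : ℝ) := by exact_mod_cast h1
    _ = ((⌊N⌋ : ℤ) : ℝ) := h3
    _ ≤ N := Int.floor_le N

theorem RSU_log (N : ℝ) (hN : 1 ≤ N) (n : ℕ) (h : (2 : ℝ) ^ n ≤ 4 * N) : (n : ℝ) ≤ 2 + 2 * Real.log N := by
  have h1 : (n : ℝ) * Real.log 2 ≤ Real.log (4 * N) := by
    rw [← Real.log_pow]
    exact Real.log_le_log (by positivity) h
  have h4 : Real.log 4 = 2 * Real.log 2 := by
    rw [show (4 : ℝ) = 2 ^ 2 by norm_num, Real.log_pow]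
    norm_num
  rw [Real.log_mul (by norm_num) (by linarith), h4] at h1
  have h5 : 0 ≤ Real.log N := Real.log_nonneg hN
  have h6 := Real.log_two_gt_d9
  by_contra hcon
  push Not at hcon
  nlinarith

theorem RSU_big (c : ℝ) (hc : 0 < c) : ∃ N₀ : ℝ, 1 ≤ N₀ ∧ ∀ N : ℝ, N₀ ≤ N →
    (3 + 2 * Real.log N) ^ 2 * N ^ (1 - c) ≤ N := by
  have ht := (tendsto_rpow_atTop (by positivity : 0 < c / 2)).eventually_ge_atTop ((3 + 8 / c) ^ 2)
  rw [Filter.eventually_atTop] at ht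
  obtain ⟨a, ha⟩ := ht
  refine ⟨max a 1, le_max_right _ _, ?_⟩
  intro N hN
  have hN1 : 1 ≤ N := le_trans (le_max_right _ _) hN
  have hN0 : 0 < N := by linarith
  have hK := ha N (le_trans (le_max_left _ _) hN)
  have hl := Real.log_le_rpow_div hN0.le (by positivity : 0 < c / 4)
  have hl0 : 0 ≤ Real.log N := Real.log_nonneg hN1
  have hx1 : 1 ≤ N ^ (c / 4) := Real.one_le_rpow hN1 (by positivity)
  have e1 : 3 + 2 * Real.log N ≤ (3 + 8 / c) * N ^ (c / 4) := by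
    have e2 : N ^ (c / 4) / (c / 4) = (4 / c) * N ^ (c / 4) := by
      field_simp
    rw [e2] at hl
    have e3 : (8 / c) * N ^ (c / 4) = 2 * ((4 / c) * N ^ (c / 4)) := by ring
    rw [add_mul, e3]
    linarith
  have e4 : (3 + 2 * Real.log N) ^ 2 ≤ ((3 + 8 / c) * N ^ (c / 4)) ^ 2 := by
    apply pow_le_pow_left₀ (by linarith) e1
  have e5 : ((3 + 8 / c) * N ^ (c / 4)) ^ 2 = (3 + 8 / c) ^ 2 * N ^ (c / 2) := by
    rw [mul_pow, ← Real.rpow_natCast (N ^ (c / 4)) 2, ← Real.rpow_mul hN0.le]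
    congr 2
    push_cast
    ring
  have e6 : (3 + 2 * Real.log N) ^ 2 ≤ N ^ c := by
    calc (3 + 2 * Real.log N) ^ 2 ≤ (3 + 8 / c) ^ 2 * N ^ (c / 2) := by rw [← e5]; exact e4
      _ ≤ N ^ (c / 2) * N ^ (c / 2) := mul_le_mul_of_nonneg_right hK (by positivity)
      _ = N ^ c := by
        rw [← Real.rpow_add hN0]
        congr 1
        ring
  calc (3 + 2 * Real.log N) ^ 2 * N ^ (1 - c) ≤ N ^ c * N ^ (1 - c) :=
        mul_le_mul_of_nonneg_right e6 (by positivity)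
    _ = N := by
      rw [← Real.rpow_add hN0]
      rw [show c + (1 - c) = 1 by ring, Real.rpow_one]

theorem RSU_lo (N δ a : ℝ) (hN : 0 < N) (ha : 0 < a) (h : a ≤ 4 * N ^ δ) : N ^ (1 / 2 - δ) ≤ 4 * √N / a := by
  rw [Real.rpow_sub hN, ← Real.sqrt_eq_rpow, div_le_div_iff₀ (Real.rpow_pos_of_pos hN δ) ha]
  calc √N * a ≤ √N * (4 * N ^ δ) := mul_le_mul_of_nonneg_left h (Real.sqrt_nonneg N)
    _ = 4 * √N * N ^ δ := by ring

theorem RSU_hi (N δ a : ℝ) (hN : 0 < N) (ha : 0 < a) (h : 4 * N ^ δ ≤ a) : 4 * √N / a ≤ N ^ (1 / 2 - δ) := by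
  rw [Real.rpow_sub hN, ← Real.sqrt_eq_rpow, div_le_div_iff₀ ha (Real.rpow_pos_of_pos hN δ)]
  calc 4 * √N * N ^ δ = √N * (4 * N ^ δ) := by ring
    _ ≤ √N * a := mul_le_mul_of_nonneg_left h (Real.sqrt_nonneg N)

theorem RSU_one (hRCL : RCL_stmt) (h : ℤ → ℕ)
    (hh : ∀ (K : Type) [Field K] [NumberField K], Module.finrank ℚ K = 2 →
      h (NumberField.discr K) = Nat.card {x : ClassGroup (𝓞 K) // x ^ 5 = 1})
    (N : ℝ) (hN : 1 ≤ N) (I J L : ℕ) (hL : 4 * √N < 2 ^ L) (D : ℤ) (hD : D ∈ DNR N) :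
    (h D : ℝ) ≤ 1 + 2 * ((∑ i ∈ range I, ∑ j ∈ range (i + 1),
      SF (fun _ E => ((IMset E.Q (4 * √N / 2 ^ i) (4 * √N / 2 ^ (j + 1))).ncard : ℝ)) D) +
      (∑ i ∈ Ico I L, ∑ j ∈ range J,
        SF (fun _ E => ((IMset E.Q (4 * √N / 2 ^ i) (4 * √N / 2 ^ (j + 1))).ncard : ℝ)) D) +
      SF (fun _ E => ((CC E.Q (4 * √N / 2 ^ J)).ncard : ℝ)) D) := by
  classical
  rw [DNR, Finset.mem_filter, Finset.mem_Icc] at hD
  obtain ⟨⟨hD1, hD2⟩, hF, hD3⟩ := hD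
  have hD0 : 0 < D := by omega
  have hne : Nonempty (Fld D) := by
    obtain ⟨K, fd, nf, Q, h1, h2, h3⟩ := exists_QF D hF
    exact ⟨@Fld.mk D K fd nf Q h1 h2 h3⟩
  have hNs : (0 : ℝ) < √N := Real.sqrt_pos.mpr (by linarith)
  have e1 := hh hne.some.K hne.some.fin
  rw [hne.some.dK] at e1
  have hQ : 0 < hne.some.Q.D := by rw [hne.some.hD]; exact hD0
  have hDN : (D : ℝ) ≤ N := by
    have h1 : ((D : ℤ) : ℝ) ≤ ((⌊N⌋ : ℤ) : ℝ) := by exact_mod_cast hD2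
    have h2 : ((⌊N⌋ : ℤ) : ℝ) ≤ N := Int.floor_le N
    linarith
  have hs : 2 * √(hne.some.Q.D : ℝ) ≤ 4 * √N := by
    have h1 : √(hne.some.Q.D : ℝ) ≤ √N := by
      apply Real.sqrt_le_sqrt
      rw [hne.some.hD]
      exact hDN
    linarith
  have e2 := hRCL hne.some.K hne.some.Q hne.some.fin hQ (4 * √N) I J L hs hL
  rw [← e1] at e2
  have e4 : ∀ i j : ℕ, SF (fun _ E => ((IMset E.Q (4 * √N / 2 ^ i) (4 * √N / 2 ^ (j + 1))).ncard : ℝ)) D =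
      ((IMset hne.some.Q (4 * √N / 2 ^ i) (4 * √N / 2 ^ (j + 1))).ncard : ℝ) := by
    intro i j
    rw [SF, dif_pos hne]
  have e5 : SF (fun _ E => ((CC E.Q (4 * √N / 2 ^ J)).ncard : ℝ)) D =
      ((CC hne.some.Q (4 * √N / 2 ^ J)).ncard : ℝ) := by
    rw [SF, dif_pos hne]
  simp only [e4, e5]
  exact e2

theorem RSU (hRMN : RMN_stmt) (hRBC : RBC_stmt) (hRFT : RFT_stmt) (hRCL : RCL_stmt) : RSU_stmt := by
  intro hT
  obtain ⟨η', C₁, N₁, hη', hC₁, hM⟩ := hRMN hT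
  obtain ⟨δ, hδ, hδ1, hδ2⟩ : ∃ δ : ℝ, 0 < δ ∧ δ ≤ η' ∧ δ ≤ 1 / 10 :=
    ⟨min η' (1 / 10), lt_min hη' (by norm_num), min_le_left _ _, min_le_right _ _⟩
  obtain ⟨δ', c, N₂, hδ', hc, hB⟩ := hRBC δ hδ hδ2
  obtain ⟨ρ, hρ, hρ1, hρ2⟩ : ∃ ρ : ℝ, 0 < ρ ∧ ρ ≤ δ' ∧ ρ ≤ 1 / 10 :=
    ⟨min δ' (1 / 10), lt_min hδ' (by norm_num), min_le_left _ _, min_le_right _ _⟩
  obtain ⟨N₃, hF⟩ := hRFT ρ hρ hρ2
  obtain ⟨N₄, hN₄, hG⟩ := RSU_big c hc
  refine ⟨32 * C₁ + 5, max (max (max N₁ N₂) (max N₃ N₄)) 16, by linarith,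
    le_trans (by norm_num) (le_max_right _ _), ?_⟩
  intro h hh N hN
  have hNN₁ : N₁ ≤ N := le_trans (le_trans (le_trans (le_max_left _ _) (le_max_left _ _)) (le_max_left _ _)) hN
  have hNN₂ : N₂ ≤ N := le_trans (le_trans (le_trans (le_max_right _ _) (le_max_left _ _)) (le_max_left _ _)) hN
  have hNN₃ : N₃ ≤ N := le_trans (le_trans (le_trans (le_max_left _ _) (le_max_right _ _)) (le_max_left _ _)) hN
  have hNN₄ : N₄ ≤ N := le_trans (le_trans (le_trans (le_max_right _ _) (le_max_right _ _)) (le_max_left _ _)) hN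
  have hN16 : 16 ≤ N := le_trans (le_max_right _ _) hN
  have hN1 : 1 ≤ N := by linarith
  have hN0 : 0 < N := by linarith
  have hsN : (0 : ℝ) < √N := Real.sqrt_pos.mpr hN0
  have hsq : √N * √N = N := Real.mul_self_sqrt hN0.le
  have hs1 : 1 ≤ √N := by
    rw [Real.one_le_sqrt]
    exact hN1
  have hsN' : √N ≤ N := by nlinarith
  have hlog : 0 ≤ Real.log N := Real.log_nonneg hN1
  have hx1 : 1 ≤ N ^ δ := Real.one_le_rpow hN1 hδ.le
  have hy1 : 1 ≤ N ^ ρ := Real.one_le_rpow hN1 hρ.le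
  have hyN : N ^ ρ ≤ N := by
    calc N ^ ρ ≤ N ^ (1 : ℝ) := Real.rpow_le_rpow_of_exponent_le hN1 (by linarith)
      _ = N := Real.rpow_one N
  obtain ⟨nI, hI1, hI2⟩ := exists_nat_pow_near (by linarith : 1 ≤ 4 * N ^ δ) (by norm_num : (1 : ℝ) < 2)
  obtain ⟨nJ, hJ1, hJ2⟩ := exists_nat_pow_near (by linarith : 1 ≤ 4 * N ^ ρ) (by norm_num : (1 : ℝ) < 2)
  obtain ⟨nL, hL1, hL2⟩ := exists_nat_pow_near (by linarith : 1 ≤ 4 * √N) (by norm_num : (1 : ℝ) < 2)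
  have hstep : ∀ D ∈ DNR N, _ := fun D hD =>
    RSU_one hRCL h hh N hN1 (nI + 1) (nJ + 1) (nL + 1) hL2 D hD
  -- (a)
  have ha : ((DNR N).card : ℝ) ≤ N := RSU_card N hN0.le
  -- (b)
  have hb : ∀ i ∈ range (nI + 1), ∀ j ∈ range (i + 1),
      ∑ D ∈ DNR N, SF (fun _ E => ((IMset E.Q (4 * √N / 2 ^ i) (4 * √N / 2 ^ (j + 1))).ncard : ℝ)) D ≤
        4 * C₁ * N / 2 ^ i := by
    intro i hi j hj
    rw [Finset.mem_range] at hi hj
    have h2i : (0 : ℝ) < 2 ^ i := by positivity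
    have h2j : (0 : ℝ) < 2 ^ j := by positivity
    have hij : (2 : ℝ) ^ j ≤ 2 ^ i := pow_le_pow_right₀ (by norm_num) (by omega)
    have hiI : (2 : ℝ) ^ i ≤ 2 ^ nI := pow_le_pow_right₀ (by norm_num) (by omega)
    have e2l : 2 * (4 * √N / 2 ^ (j + 1)) = 4 * √N / 2 ^ j := by
      rw [pow_succ]
      field_simp
    have c1 : N ^ (1 / 2 - η') ≤ 4 * √N / 2 ^ i := by
      calc N ^ (1 / 2 - η') ≤ N ^ (1 / 2 - δ) := Real.rpow_le_rpow_of_exponent_le hN1 (by linarith)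
        _ ≤ 4 * √N / 2 ^ i := RSU_lo N δ (2 ^ i) hN0 h2i (le_trans hiI hI1)
    have c2 : 4 * √N / 2 ^ i ≤ 2 * (4 * √N / 2 ^ (j + 1)) := by
      rw [e2l]
      exact div_le_div_of_nonneg_left (by positivity) h2j hij
    have c3 : 2 * (4 * √N / 2 ^ (j + 1)) ≤ 4 * √N := by
      rw [e2l]
      exact div_le_self (by positivity) (one_le_pow₀ (by norm_num))
    have := hM N (4 * √N / 2 ^ i) (4 * √N / 2 ^ (j + 1)) hNN₁ c1 c2 c3
    refine le_trans this (le_of_eq ?_)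
    have : √N * (4 * √N / 2 ^ i) = 4 * N / 2 ^ i := by
      calc √N * (4 * √N / 2 ^ i) = 4 * (√N * √N) / 2 ^ i := by ring
        _ = 4 * N / 2 ^ i := by rw [hsq]
    rw [this]
    ring
  have hB' : ∑ D ∈ DNR N, ∑ i ∈ range (nI + 1), ∑ j ∈ range (i + 1),
      SF (fun _ E => ((IMset E.Q (4 * √N / 2 ^ i) (4 * √N / 2 ^ (j + 1))).ncard : ℝ)) D ≤ 16 * C₁ * N := by
    rw [Finset.sum_comm]
    calc ∑ i ∈ range (nI + 1), ∑ D ∈ DNR N, ∑ j ∈ range (i + 1),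
          SF (fun _ E => ((IMset E.Q (4 * √N / 2 ^ i) (4 * √N / 2 ^ (j + 1))).ncard : ℝ)) D
        ≤ ∑ i ∈ range (nI + 1), (4 * C₁ * N) * (((i : ℝ) + 1) / 2 ^ i) := by
          apply Finset.sum_le_sum
          intro i hi
          rw [Finset.sum_comm]
          calc ∑ j ∈ range (i + 1), ∑ D ∈ DNR N,
                SF (fun _ E => ((IMset E.Q (4 * √N / 2 ^ i) (4 * √N / 2 ^ (j + 1))).ncard : ℝ)) D
              ≤ ∑ j ∈ range (i + 1), 4 * C₁ * N / 2 ^ i := Finset.sum_le_sum (hb i hi)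
            _ = (4 * C₁ * N) * (((i : ℝ) + 1) / 2 ^ i) := by
                rw [Finset.sum_const, Finset.card_range, nsmul_eq_mul]
                push_cast
                ring
      _ = (4 * C₁ * N) * ∑ i ∈ range (nI + 1), ((i : ℝ) + 1) / 2 ^ i := by rw [← Finset.mul_sum]
      _ ≤ (4 * C₁ * N) * 4 := mul_le_mul_of_nonneg_left (RSU_geo (nI + 1)) (by positivity)
      _ = 16 * C₁ * N := by ring
  -- (c)
  have hcc : ∀ i ∈ Ico (nI + 1) (nL + 1), ∀ j ∈ range (nJ + 1),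
      ∑ D ∈ DNR N, SF (fun _ E => ((IMset E.Q (4 * √N / 2 ^ i) (4 * √N / 2 ^ (j + 1))).ncard : ℝ)) D ≤
        N ^ (1 - c) := by
    intro i hi j hj
    rw [Finset.mem_Ico] at hi
    rw [Finset.mem_range] at hj
    have h2i : (0 : ℝ) < 2 ^ i := by positivity
    have h2j : (0 : ℝ) < 2 ^ j := by positivity
    have hiL : (2 : ℝ) ^ i ≤ 2 ^ nL := pow_le_pow_right₀ (by norm_num) (by omega)
    have hiI : (2 : ℝ) ^ (nI + 1) ≤ 2 ^ i := pow_le_pow_right₀ (by norm_num) hi.1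
    have hjJ : (2 : ℝ) ^ j ≤ 2 ^ nJ := pow_le_pow_right₀ (by norm_num) (by omega)
    have e2l : 2 * (4 * √N / 2 ^ (j + 1)) = 4 * √N / 2 ^ j := by
      rw [pow_succ]
      field_simp
    have c0 : 1 ≤ 4 * √N / 2 ^ i := by
      rw [le_div_iff₀ h2i]
      linarith
    have c1 : 4 * √N / 2 ^ i ≤ N ^ (1 / 2 - δ) := RSU_hi N δ (2 ^ i) hN0 h2i (by linarith)
    have c2 : N ^ (1 / 2 - δ') ≤ 2 * (4 * √N / 2 ^ (j + 1)) := by
      rw [e2l]
      calc N ^ (1 / 2 - δ') ≤ N ^ (1 / 2 - ρ) := Real.rpow_le_rpow_of_exponent_le hN1 (by linarith)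
        _ ≤ 4 * √N / 2 ^ j := RSU_lo N ρ (2 ^ j) hN0 h2j (le_trans hjJ hJ1)
    have c3 : 2 * (4 * √N / 2 ^ (j + 1)) ≤ 4 * √N := by
      rw [e2l]
      exact div_le_self (by positivity) (one_le_pow₀ (by norm_num))
    exact hB N (4 * √N / 2 ^ i) (4 * √N / 2 ^ (j + 1)) hNN₂ c0 c1 c2 c3
  have hJn : ((nJ : ℝ) + 1) ≤ 3 + 2 * Real.log N := by
    have := RSU_log N hN1 nJ (by linarith)
    linarith
  have hLn : ((nL : ℝ) + 1) ≤ 3 + 2 * Real.log N := by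
    have := RSU_log N hN1 nL (by linarith)
    linarith
  have hC' : ∑ D ∈ DNR N, ∑ i ∈ Ico (nI + 1) (nL + 1), ∑ j ∈ range (nJ + 1),
      SF (fun _ E => ((IMset E.Q (4 * √N / 2 ^ i) (4 * √N / 2 ^ (j + 1))).ncard : ℝ)) D ≤ N := by
    rw [Finset.sum_comm]
    calc ∑ i ∈ Ico (nI + 1) (nL + 1), ∑ D ∈ DNR N, ∑ j ∈ range (nJ + 1),
          SF (fun _ E => ((IMset E.Q (4 * √N / 2 ^ i) (4 * √N / 2 ^ (j + 1))).ncard : ℝ)) D
        ≤ ∑ i ∈ Ico (nI + 1) (nL + 1), ((nJ : ℝ) + 1) * N ^ (1 - c) := by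
          apply Finset.sum_le_sum
          intro i hi
          rw [Finset.sum_comm]
          calc ∑ j ∈ range (nJ + 1), ∑ D ∈ DNR N,
                SF (fun _ E => ((IMset E.Q (4 * √N / 2 ^ i) (4 * √N / 2 ^ (j + 1))).ncard : ℝ)) D
              ≤ ∑ j ∈ range (nJ + 1), N ^ (1 - c) := Finset.sum_le_sum (hcc i hi)
            _ = ((nJ : ℝ) + 1) * N ^ (1 - c) := by
                rw [Finset.sum_const, Finset.card_range, nsmul_eq_mul]
                push_cast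
                ring
      _ = ((Ico (nI + 1) (nL + 1)).card : ℝ) * (((nJ : ℝ) + 1) * N ^ (1 - c)) := by
          rw [Finset.sum_const, nsmul_eq_mul]
      _ ≤ ((nL : ℝ) + 1) * (((nJ : ℝ) + 1) * N ^ (1 - c)) := by
          apply mul_le_mul_of_nonneg_right _ (by positivity)
          rw [Nat.card_Ico]
          have : nL + 1 - (nI + 1) ≤ nL + 1 := by omega
          exact_mod_cast this
      _ ≤ (3 + 2 * Real.log N) * ((3 + 2 * Real.log N) * N ^ (1 - c)) := by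
          apply mul_le_mul hLn _ (by positivity) (by positivity)
          exact mul_le_mul_of_nonneg_right hJn (by positivity)
      _ = (3 + 2 * Real.log N) ^ 2 * N ^ (1 - c) := by ring
      _ ≤ N := hG N hNN₄
  -- (d)
  have hD' : ∑ D ∈ DNR N, SF (fun _ E => ((CC E.Q (4 * √N / 2 ^ (nJ + 1))).ncard : ℝ)) D ≤ N := by
    have h2J : (0 : ℝ) < 2 ^ (nJ + 1) := by positivity
    have c1 : 4 * √N / 2 ^ (nJ + 1) ≤ N ^ (1 / 2 - ρ) := RSU_hi N ρ (2 ^ (nJ + 1)) hN0 h2J hJ2.le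
    have c0 : 1 ≤ 4 * √N / 2 ^ (nJ + 1) := by
      rw [le_div_iff₀ h2J]
      have q1 : (2 : ℝ) ≤ N ^ (1 / 4 : ℝ) := by
        have q2 : (16 : ℝ) ^ (1 / 4 : ℝ) = 2 := by
          rw [show (16 : ℝ) = 2 ^ (4 : ℝ) by norm_num, ← Real.rpow_mul (by norm_num)]
          norm_num
        rw [← q2]
        exact Real.rpow_le_rpow (by norm_num) hN16 (by norm_num)
      have q3 : N ^ ρ ≤ N ^ (1 / 4 : ℝ) := Real.rpow_le_rpow_of_exponent_le hN1 (by linarith)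
      have q4 : N ^ (1 / 4 : ℝ) * N ^ (1 / 4 : ℝ) = √N := by
        rw [← Real.rpow_add hN0, Real.sqrt_eq_rpow]
        norm_num
      have q5 : 2 * N ^ ρ ≤ √N := by
        rw [← q4]
        exact mul_le_mul q1 q3 (by positivity) (by linarith)
      rw [pow_succ]
      linarith
    have := hF N (4 * √N / 2 ^ (nJ + 1)) hNN₃ c0 c1
    refine le_trans this ?_
    calc N ^ (1 - ρ) ≤ N ^ (1 : ℝ) := Real.rpow_le_rpow_of_exponent_le hN1 (by linarith)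
      _ = N := Real.rpow_one N
  -- total
  have htot := Finset.sum_le_sum hstep
  rw [Finset.sum_add_distrib, ← Finset.mul_sum, Finset.sum_add_distrib, Finset.sum_add_distrib, Finset.sum_const,
    nsmul_eq_mul, mul_one] at htot
  linarith

end Pool.Agent.T6R
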